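import Mathlib

/-!
# MP_6eafb7_an

The convolution sums `α_{n,k}(x)` and `β_{n,k}(x)` of generalized Bernoulli polynomials are
nonnegative.
-/

namespace Pool.Agent.Results.MP_6eafb7_an.Positivity

open PowerSeries

/-- The power series `(e^t - 1)/t`. -/
noncomputable def U : ℝ⟦X⟧ := PowerSeries.mk fun k => 1 / ((k + 1).factorial : ℝ)

/-- The power series `t/(e^t - 1)`. -/
noncomputable def V : ℝ⟦X⟧ := U⁻¹

/-- The generalized Bernoulli polynomial `B_m^{(a)}(x)`, for a natural number `a`, evaluated at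
a real number `x`: `m!` times the coefficient of `t^m` in `(t/(e^t-1))^a e^{xt}`. -/
noncomputable def B (a m : ℕ) (x : ℝ) : ℝ :=
  (m.factorial : ℝ) * coeff m (V ^ a * rescale x (exp ℝ))

/-- The sum `α_{n,k}(x)`. -/
noncomputable def alpha (n k : ℕ) (x : ℝ) : ℝ :=
  (-1) ^ k * ∑ j ∈ Finset.range (2 * k + 1),
    (-1) ^ j * (n.choose j : ℝ) * (n.choose (2 * k - j) : ℝ) *
      B n (n - j) x * B n (n - (2 * k - j)) x

/-- The sum `β_{n,k}(x)`. -/
noncomputable def beta (n k : ℕ) (x : ℝ) : ℝ :=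
  (-1) ^ k * ∑ j ∈ Finset.range (2 * k + 1),
    (-1) ^ j * (n.choose j : ℝ) * (n.choose (2 * k - j) : ℝ) *
      B n j x * B n (2 * k - j) x

theorem X_mul_U : (X : ℝ⟦X⟧) * U = exp ℝ - 1 := by
  ext n
  rcases n with _ | n
  · simp
  · rw [coeff_succ_X_mul]
    simp [U, coeff_exp, coeff_one]

theorem V_mul_U : V * U = 1 := PowerSeries.inv_mul_cancel _ (by simp [U])

theorem rescale_one_exp : rescale (1 : ℝ) (exp ℝ) = exp ℝ := by simp

theorem coeff_rescale_exp (x : ℝ) (k : ℕ) :
    coeff k (rescale x (exp ℝ)) = x ^ k / (k.factorial : ℝ) := by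
  simp [coeff_rescale, coeff_exp, div_eq_mul_inv]

theorem B_transl (a m : ℕ) (x y : ℝ) :
    B a m (x + y) = ∑ r ∈ Finset.range (m + 1), (m.choose r : ℝ) * y ^ r * B a (m - r) x := by
  unfold B
  rw [← exp_mul_exp_eq_exp_add, ← mul_assoc, mul_comm (V ^ a * _), coeff_mul,
    Finset.Nat.sum_antidiagonal_eq_sum_range_succ_mk, Finset.mul_sum]
  refine Finset.sum_congr rfl fun r hr => ?_
  have hr' : r ≤ m := by
    have := Finset.mem_range.mp hr
    omega
  rw [coeff_rescale_exp, Nat.cast_choose ℝ hr']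
  have h1 : (r.factorial : ℝ) ≠ 0 := by exact_mod_cast r.factorial_ne_zero
  have h2 : ((m - r).factorial : ℝ) ≠ 0 := by exact_mod_cast (m - r).factorial_ne_zero
  field_simp

/-- the polynomial `y ↦ B_m^{(a)}(x + y)` -/
noncomputable def T (a m : ℕ) (x : ℝ) : Polynomial ℝ :=
  ∑ r ∈ Finset.range (m + 1),
    Polynomial.C ((m.choose r : ℝ) * B a (m - r) x) * Polynomial.X ^ r

theorem eval_T (a m : ℕ) (x y : ℝ) : (T a m x).eval y = B a m (x + y) := by
  rw [B_transl, T, Polynomial.eval_finsetSum]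
  refine Finset.sum_congr rfl fun r _ => ?_
  simp
  ring

theorem coeff_T (a m : ℕ) (x : ℝ) (r : ℕ) :
    (T a m x).coeff r = (m.choose r : ℝ) * B a (m - r) x := by
  rw [T, Polynomial.finsetSum_coeff]
  simp only [Polynomial.coeff_C_mul_X_pow]
  by_cases h : r ≤ m
  · rw [Finset.sum_eq_single r]
    · simp
    · intro b _ hb
      rw [if_neg (Ne.symm hb)]
    · intro h'
      exact absurd (Finset.mem_range.mpr (by omega)) h'
  · rw [Finset.sum_eq_zero, Nat.choose_eq_zero_of_lt (by omega)]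
    · simp
    · intro b hb
      have := Finset.mem_range.mp hb
      rw [if_neg (by omega)]

theorem constantCoeff_V : constantCoeff V = 1 := by
  simp [V, U]

theorem B_zero (a : ℕ) (x : ℝ) : B a 0 x = 1 := by
  have : constantCoeff (rescale x (exp ℝ)) = 1 := by
    rw [← coeff_zero_eq_constantCoeff_apply, coeff_rescale_exp]; simp
  simp [B, constantCoeff_V, this]

theorem hasDerivAt_B (a m : ℕ) (x : ℝ) :
    HasDerivAt (B a (m + 1)) (((m : ℝ) + 1) * B a m x) x := by
  have h1 : HasDerivAt (fun y => (T a (m + 1) x).eval y)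
      ((Polynomial.derivative (T a (m + 1) x)).eval 0) 0 := Polynomial.hasDerivAt _ 0
  have h2 : (Polynomial.derivative (T a (m + 1) x)).eval 0 = ((m : ℝ) + 1) * B a m x := by
    rw [← Polynomial.coeff_zero_eq_eval_zero, Polynomial.coeff_derivative, coeff_T]
    simp
  rw [h2] at h1
  have h3 : (fun y => (T a (m + 1) x).eval y) = fun y => B a (m + 1) (x + y) :=
    funext fun y => eval_T _ _ _ _
  rw [h3] at h1
  have h1' : HasDerivAt (fun y => B a (m + 1) (x + y)) (((m : ℝ) + 1) * B a m x) (x - x) := by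
    rw [sub_self]; exact h1
  have h5 := h1'.comp_sub_const x x
  simpa using h5

theorem B_delta (a m : ℕ) (x : ℝ) :
    B (a + 1) (m + 1) (x + 1) - B (a + 1) (m + 1) x = ((m : ℝ) + 1) * B a m x := by
  unfold B
  have h : V ^ (a + 1) * rescale (x + 1) (exp ℝ) - V ^ (a + 1) * rescale x (exp ℝ) =
      X * (V ^ a * rescale x (exp ℝ)) := by
    rw [← exp_mul_exp_eq_exp_add, rescale_one_exp]
    have h2 : exp ℝ = X * U + 1 := by rw [X_mul_U]; ring
    calc V ^ (a + 1) * (rescale x (exp ℝ) * exp ℝ) - V ^ (a + 1) * rescale x (exp ℝ)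
        = V ^ (a + 1) * rescale x (exp ℝ) * (exp ℝ - 1) := by ring
      _ = V ^ (a + 1) * rescale x (exp ℝ) * (X * U) := by rw [X_mul_U]
      _ = X * (V ^ a * rescale x (exp ℝ)) * (V * U) := by ring
      _ = _ := by rw [V_mul_U, mul_one]
  rw [← mul_sub, ← map_sub, h, coeff_succ_X_mul, Nat.factorial_succ]
  push_cast
  ring

theorem residue (n : ℕ) : coeff (n + 1) (V ^ (n + 2) * exp ℝ) = 0 := by
  have h1 : U + X * d⁄dX ℝ U = exp ℝ := by
    have := congrArg (d⁄dX ℝ) X_mul_U
    rw [Derivation.leibniz, map_sub, derivative_exp, derivative_one, derivative_X] at this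
    simp only [smul_eq_mul, mul_one, sub_zero] at this
    rw [← this]; ring
  have h2 : d⁄dX ℝ V = -V ^ 2 * d⁄dX ℝ U := derivative_inv' U
  have h3 : d⁄dX ℝ (V ^ (n + 1)) = -((n : ℝ⟦X⟧) + 1) * (V ^ (n + 2) * d⁄dX ℝ U) := by
    rw [derivative_pow, h2]
    push_cast
    simp
    ring
  have h4 : ((n : ℝ⟦X⟧) + 1) * (V ^ (n + 2) * exp ℝ) =
      ((n : ℝ⟦X⟧) + 1) * V ^ (n + 1) - X * d⁄dX ℝ (V ^ (n + 1)) := by
    rw [h3, ← h1]
    have : V ^ (n + 2) * U = V ^ (n + 1) := by
      rw [pow_succ, mul_assoc, V_mul_U, mul_one]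
    calc ((n : ℝ⟦X⟧) + 1) * (V ^ (n + 2) * (U + X * d⁄dX ℝ U))
        = ((n : ℝ⟦X⟧) + 1) * (V ^ (n + 2) * U) + ((n : ℝ⟦X⟧) + 1) * (V ^ (n + 2) * (X * d⁄dX ℝ U)) := by
          ring
      _ = _ := by rw [this]; ring
  have h5 := congrArg (coeff (n + 1)) h4
  have e : ((n : ℝ⟦X⟧) + 1) = C ((n : ℝ) + 1) := by simp
  rw [e, map_sub, coeff_C_mul, coeff_C_mul, coeff_succ_X_mul, coeff_derivative] at h5
  have h6 : ((n : ℝ) + 1) * coeff (n + 1) (V ^ (n + 2) * exp ℝ) = 0 := by
    rw [h5]; ring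
  have : ((n : ℝ) + 1) ≠ 0 := by positivity
  exact (mul_eq_zero.mp h6).resolve_left this

theorem B_one (n : ℕ) : B (n + 2) (n + 1) 1 = 0 := by
  rw [B, rescale_one_exp, residue, mul_zero]

/-- `B_n^{(n+1)}(x) = (x-1)(x-2)⋯(x-n)`. -/
theorem B_prod (n : ℕ) (x : ℝ) :
    B (n + 1) n x = ∏ j ∈ Finset.range n, (x - ((j : ℝ) + 1)) := by
  induction n generalizing x with
  | zero => simp [B_zero]
  | succ n ih =>
    -- the product polynomial
    let Q : Polynomial ℝ := ∏ j ∈ Finset.range (n + 1), (Polynomial.X - Polynomial.C ((j : ℝ) + 1))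
    have hQ : ∀ y, Q.eval y = ∏ j ∈ Finset.range (n + 1), (y - ((j : ℝ) + 1)) := by
      intro y
      simp [Q, Polynomial.eval_prod]
    have hQΔ : ∀ y, Q.eval (y + 1) - Q.eval y =
        ((n : ℝ) + 1) * ∏ j ∈ Finset.range n, (y - ((j : ℝ) + 1)) := by
      intro y
      rw [hQ, hQ, Finset.prod_range_succ', Finset.prod_range_succ]
      have : ∏ k ∈ Finset.range n, (y + 1 - (((k + 1 : ℕ) : ℝ) + 1)) =
          ∏ j ∈ Finset.range n, (y - ((j : ℝ) + 1)) := by
        refine Finset.prod_congr rfl fun k _ => ?_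
        push_cast
        ring
      rw [this]
      push_cast
      ring
    let P : Polynomial ℝ := T (n + 2) (n + 1) 0
    have hP : ∀ y, P.eval y = B (n + 2) (n + 1) y := by
      intro y
      simp only [P, eval_T, zero_add]
    have hPΔ : ∀ y, P.eval (y + 1) - P.eval y =
        ((n : ℝ) + 1) * ∏ j ∈ Finset.range n, (y - ((j : ℝ) + 1)) := by
      intro y
      rw [hP, hP, B_delta, ih]
    have hR : ∀ k : ℕ, (P - Q).eval ((k : ℝ) + 1) = 0 := by
      intro k
      induction k with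
      | zero =>
        rw [Polynomial.eval_sub, hP, hQ, Nat.cast_zero, zero_add, B_one,
          Finset.prod_eq_zero (Finset.mem_range.mpr (Nat.succ_pos n)) (by simp)]
        simp
      | succ k ihk =>
        have h1 := hPΔ ((k : ℝ) + 1)
        have h2 := hQΔ ((k : ℝ) + 1)
        rw [Polynomial.eval_sub] at ihk ⊢
        push_cast
        linarith
    have hPQ : P = Q := by
      apply Polynomial.eq_of_infinite_eval_eq
      apply Set.Infinite.mono (s := Set.range fun k : ℕ => (k : ℝ) + 1)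
      · rintro _ ⟨k, rfl⟩
        have := hR k
        rw [Polynomial.eval_sub] at this
        simp only [Set.mem_ofPred_eq]
        linarith
      · apply Set.infinite_range_of_injective
        intro a b h
        simpa using h
    rw [← hP, hPQ, hQ]

/-- mean value: the sign of `B_n^{(n)}` at the integers `0, …, n`. -/
theorem B_sign {n m : ℕ} (hm : m ≤ n) : 0 < (-1 : ℝ) ^ (n - m) * B n n (m : ℝ) := by
  have hmv := exists_hasDerivAt_eq_slope (B (n + 1) (n + 1))
    (fun x => ((n : ℝ) + 1) * B (n + 1) n x) (show (m : ℝ) < (m : ℝ) + 1 by linarith)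
    (fun x _ => (hasDerivAt_B (n + 1) n x).continuousAt.continuousWithinAt)
    (fun x _ => hasDerivAt_B (n + 1) n x)
  obtain ⟨ξ, hξ, h⟩ := hmv
  have h1 : (m : ℝ) + 1 - m = 1 := by ring
  rw [h1, div_one, B_delta] at h
  have hn : ((n : ℝ) + 1) ≠ 0 := by positivity
  have h2 : B n n (m : ℝ) = B (n + 1) n ξ := (mul_left_cancel₀ hn h).symm
  rw [h2, B_prod]
  have hsplit : ∏ j ∈ Finset.range n, (ξ - ((j : ℝ) + 1)) =
      (∏ j ∈ Finset.range m, (ξ - ((j : ℝ) + 1))) *
        ∏ j ∈ Finset.range (n - m), (ξ - (((m + j : ℕ) : ℝ) + 1)) := by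
    rw [← Finset.prod_range_add, Nat.add_sub_cancel' hm]
  rw [hsplit]
  have h3 : 0 < ∏ j ∈ Finset.range m, (ξ - ((j : ℝ) + 1)) := by
    apply Finset.prod_pos
    intro j hj
    have : (j : ℝ) + 1 ≤ m := by exact_mod_cast Finset.mem_range.mp hj
    linarith [hξ.1]
  have h4 : 0 < (-1 : ℝ) ^ (n - m) * ∏ j ∈ Finset.range (n - m), (ξ - (((m + j : ℕ) : ℝ) + 1)) := by
    have : (-1 : ℝ) ^ (n - m) * ∏ j ∈ Finset.range (n - m), (ξ - (((m + j : ℕ) : ℝ) + 1)) =
        ∏ j ∈ Finset.range (n - m), ((((m + j : ℕ) : ℝ) + 1) - ξ) := by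
      rw [← Finset.card_range (n - m), ← Finset.prod_const, Finset.card_range,
        ← Finset.prod_mul_distrib]
      exact Finset.prod_congr rfl fun j _ => by ring
    rw [this]
    apply Finset.prod_pos
    intro j _
    push_cast
    have : (0 : ℝ) ≤ j := Nat.cast_nonneg j
    linarith [hξ.2]
  calc 0 < (∏ j ∈ Finset.range m, (ξ - ((j : ℝ) + 1))) *
        ((-1 : ℝ) ^ (n - m) * ∏ j ∈ Finset.range (n - m), (ξ - (((m + j : ℕ) : ℝ) + 1))) :=
        mul_pos h3 h4
    _ = _ := by ring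

theorem continuous_B (a m : ℕ) : Continuous (B a m) := by
  have : B a m = fun y => (T a m 0).eval y := by
    funext y
    rw [eval_T, zero_add]
  rw [this]
  exact (T a m 0).continuous

theorem exists_root {n i : ℕ} (hi : i < n) : ∃ z : ℝ, (i : ℝ) < z ∧ z < i + 1 ∧ B n n z = 0 := by
  have h1 := B_sign (n := n) (m := i) hi.le
  have h2 := B_sign (n := n) (m := i + 1) hi
  have e : n - i = (n - (i + 1)) + 1 := by omega
  rw [e, pow_succ] at h1
  have hlt : (i : ℝ) < ((i + 1 : ℕ) : ℝ) := by push_cast; linarith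
  set s : ℝ := (-1) ^ (n - (i + 1)) with hs
  have hs0 : s ≠ 0 := by rw [hs]; exact pow_ne_zero _ (by norm_num)
  have hcont : Continuous fun x => s * B n n x := continuous_const.mul (continuous_B n n)
  have h0 : (0 : ℝ) ∈ Set.Ioo (s * B n n (i : ℝ)) (s * B n n ((i + 1 : ℕ) : ℝ)) := by
    constructor
    · linarith
    · exact h2
  obtain ⟨z, hz, hz0⟩ := intermediate_value_Ioo hlt.le hcont.continuousOn h0
  refine ⟨z, hz.1, by simpa using hz.2, ?_⟩
  exact (mul_eq_zero.mp hz0).resolve_left hs0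

/-- All zeros of `B_n^{(n)}` are real. -/
theorem B_factor (n : ℕ) : ∃ z : Fin n → ℝ, ∀ y, B n n y = ∏ i, (y - z i) := by
  choose z hz1 hz2 hz3 using fun i : Fin n => exists_root i.2
  refine ⟨z, fun y => ?_⟩
  have hinj : Function.Injective z := by
    intro i j hij
    have a1 := hz1 i
    have a2 := hz2 i
    have b1 := hz1 j
    have b2 := hz2 j
    rw [hij] at a1 a2
    have c1 : ((i : ℕ) : ℝ) < ((j : ℕ) : ℝ) + 1 := by linarith
    have c2 : ((j : ℕ) : ℝ) < ((i : ℕ) : ℝ) + 1 := by linarith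
    have d1 : (i : ℕ) < (j : ℕ) + 1 := by exact_mod_cast c1
    have d2 : (j : ℕ) < (i : ℕ) + 1 := by exact_mod_cast c2
    exact Fin.ext (by omega)
  let P := T n n 0
  have hP : ∀ y, P.eval y = B n n y := by
    intro y
    simp only [P, eval_T, zero_add]
  let Q : Polynomial ℝ := ∏ i, (Polynomial.X - Polynomial.C (z i))
  have hQ : ∀ y, Q.eval y = ∏ i, (y - z i) := by
    intro y
    simp [Q, Polynomial.eval_prod]
  have hPn : P.coeff n = 1 := by simp [P, coeff_T, B_zero]
  have hPd : P.degree ≤ n := by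
    rw [Polynomial.degree_le_iff_coeff_zero]
    intro m hm
    have : n < m := by exact_mod_cast hm
    rw [coeff_T, Nat.choose_eq_zero_of_lt this]
    simp
  have hQm : Q.Monic := Polynomial.monic_prod_of_monic _ _ fun i _ => Polynomial.monic_X_sub_C _
  have hQn : Q.natDegree = n := by
    rw [Polynomial.natDegree_prod_of_monic _ _ fun i _ => Polynomial.monic_X_sub_C _]
    simp
  have hQc : Q.coeff n = 1 := by
    have := hQm.coeff_natDegree
    rwa [hQn] at this
  have hdeg : (P - Q).degree < n := by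
    rw [Polynomial.degree_lt_iff_coeff_zero]
    intro m hm
    rcases eq_or_lt_of_le hm with rfl | hm
    · rw [Polynomial.coeff_sub, hPn, hQc, sub_self]
    · have h1 : P.coeff m = 0 := by
        apply Polynomial.coeff_eq_zero_of_degree_lt
        exact lt_of_le_of_lt hPd (by exact_mod_cast hm)
      have h2 : Q.coeff m = 0 := by
        apply Polynomial.coeff_eq_zero_of_natDegree_lt
        omega
      rw [Polynomial.coeff_sub, h1, h2, sub_self]
  have hzero : P - Q = 0 := by
    apply Polynomial.eq_zero_of_degree_lt_of_eval_finset_eq_zero (Finset.univ.image z)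
    · rw [Finset.card_image_of_injective _ hinj]
      simpa using hdeg
    · intro x hx
      obtain ⟨i, -, rfl⟩ := Finset.mem_image.mp hx
      rw [Polynomial.eval_sub, hP, hz3, hQ, Finset.prod_eq_zero (Finset.mem_univ i) (by simp)]
      simp
  rw [← hP, ← hQ, sub_eq_zero.mp hzero]

theorem coeff_nonneg_prod {n : ℕ} (u : Fin n → ℝ) (k : ℕ) :
    0 ≤ (∏ i, (Polynomial.X + Polynomial.C (u i ^ 2)) : Polynomial ℝ).coeff k := by
  have : ∀ s : Finset (Fin n), ∀ k : ℕ,
      0 ≤ (∏ i ∈ s, (Polynomial.X + Polynomial.C (u i ^ 2)) : Polynomial ℝ).coeff k := by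
    intro s
    induction s using Finset.induction_on with
    | empty =>
      intro k
      simp only [Finset.prod_empty, Polynomial.coeff_one]
      split_ifs <;> norm_num
    | insert i s hi ih =>
      intro k
      rw [Finset.prod_insert hi, add_mul, Polynomial.coeff_add, Polynomial.coeff_C_mul]
      have h1 := mul_nonneg (sq_nonneg (u i)) (ih k)
      rcases k with _ | k
      · simpa using h1
      · rw [Polynomial.coeff_X_mul]
        exact add_nonneg (ih k) h1
  exact this _ k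

theorem coeff_comp_neg (p : Polynomial ℝ) (i : ℕ) :
    (p.comp (-Polynomial.X)).coeff i = (-1) ^ i * p.coeff i := by
  have : (-Polynomial.X : Polynomial ℝ) = Polynomial.C (-1) * Polynomial.X := by simp
  rw [this, Polynomial.comp_C_mul_X_coeff]
  ring

theorem conv (n : ℕ) (x : ℝ) : ∃ S : Polynomial ℝ, (∀ k, 0 ≤ S.coeff k) ∧
    ∀ k, ∑ p ∈ Finset.HasAntidiagonal.antidiagonal (2 * k),
      (T n n x).coeff p.1 * ((-1) ^ p.2 * (T n n x).coeff p.2) = (-1) ^ k * S.coeff k := by
  obtain ⟨z, hz⟩ := B_factor n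
  refine ⟨∏ i, (Polynomial.X + Polynomial.C ((x - z i) ^ 2)), coeff_nonneg_prod _, fun k => ?_⟩
  have hW : (T n n x) * (T n n x).comp (-Polynomial.X) =
      Polynomial.expand ℝ 2 ((∏ i, (Polynomial.X + Polynomial.C ((x - z i) ^ 2)) :
        Polynomial ℝ).comp (-Polynomial.X)) := by
    apply Polynomial.funext
    intro y
    rw [Polynomial.eval_mul, Polynomial.expand_eval, Polynomial.eval_comp, Polynomial.eval_comp,
      eval_T, eval_T, hz, hz, Polynomial.eval_prod, ← Finset.prod_mul_distrib]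
    refine Finset.prod_congr rfl fun i _ => ?_
    simp
    ring
  have h := congrArg (fun q => Polynomial.coeff q (2 * k)) hW
  rw [Polynomial.coeff_mul, mul_comm 2 k, Polynomial.coeff_expand_mul (by norm_num),
    coeff_comp_neg] at h
  rw [← h, mul_comm 2 k]
  refine Finset.sum_congr rfl fun p _ => ?_
  rw [coeff_comp_neg]

theorem neg_pow_sub {m j : ℕ} (h : j ≤ m) : ((-1 : ℝ)) ^ (m - j) = (-1) ^ m * (-1) ^ j := by
  have h1 : ((-1 : ℝ)) ^ j * (-1) ^ j = 1 := by rw [← mul_pow]; norm_num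
  have h2 : ((-1 : ℝ)) ^ m = (-1) ^ (m - j) * (-1) ^ j := by
    rw [← pow_add, Nat.sub_add_cancel h]
  rw [h2, mul_assoc, h1, mul_one]

theorem alpha_nonneg (n k : ℕ) (x : ℝ) : 0 ≤ alpha n k x := by
  obtain ⟨S, hS, h⟩ := conv n x
  have e : alpha n k x = S.coeff k := by
    have h1 := h k
    rw [Finset.Nat.sum_antidiagonal_eq_sum_range_succ_mk] at h1
    have h2 : ((-1 : ℝ)) ^ k * (-1) ^ k = 1 := by rw [← mul_pow]; norm_num
    have h3 : alpha n k x = (-1) ^ k * ((-1) ^ k * S.coeff k) := by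
      rw [← h1, alpha]
      congr 1
      refine Finset.sum_congr rfl fun j hj => ?_
      have hj' : j ≤ 2 * k := by
        have := Finset.mem_range.mp hj
        omega
      rw [coeff_T, coeff_T]
      rw [neg_pow_sub hj', pow_mul (-1 : ℝ) 2 k, neg_one_sq, one_pow]
      ring
    rw [h3, ← mul_assoc, h2, one_mul]
  rw [e]
  exact hS k

theorem beta_nonneg {n k : ℕ} (hk : 2 * k ≤ n) (x : ℝ) : 0 ≤ beta n k x := by
  obtain ⟨S, hS, h⟩ := conv n x
  have e : beta n k x = S.coeff (n - k) := by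
    have h1 := h (n - k)
    have h0 : ∑ j ∈ Finset.range (2 * k + 1), (-1 : ℝ) ^ n * ((-1) ^ j *
        ((T n n x).coeff (n - (2 * k - j)) * (T n n x).coeff (n - j))) =
        ∑ p ∈ Finset.HasAntidiagonal.antidiagonal (2 * (n - k)),
      (T n n x).coeff p.1 * ((-1) ^ p.2 * (T n n x).coeff p.2) := by
      refine Finset.sum_of_injOn (fun j => (n - (2 * k - j), n - j)) ?_ ?_ ?_ ?_
      · intro i hi j hj hij
        have hi' := Finset.mem_range.mp (Finset.mem_coe.mp hi)
        have hj' := Finset.mem_range.mp (Finset.mem_coe.mp hj)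
        simp only [Prod.mk.injEq] at hij
        omega
      · intro j hj
        have hj' := Finset.mem_range.mp (Finset.mem_coe.mp hj)
        simp only [Finset.mem_coe, Finset.HasAntidiagonal.mem_antidiagonal]
        omega
      · intro p hp hp'
        have hp1 := Finset.HasAntidiagonal.mem_antidiagonal.mp hp
        have : n < p.1 ∨ n < p.2 := by
          by_contra hcon
          push Not at hcon
          apply hp'
          refine ⟨n - p.2, ?_, ?_⟩
          · simp only [Finset.coe_range, Set.mem_Iio]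
            omega
          · ext <;> simp only <;> omega
        rcases this with h | h
        · rw [coeff_T, Nat.choose_eq_zero_of_lt h]
          simp
        · rw [coeff_T n n x p.2, Nat.choose_eq_zero_of_lt h]
          simp
      · intro j hj
        have hj' := Finset.mem_range.mp hj
        rw [neg_pow_sub (show j ≤ n by omega)]
        ring
    rw [← h0] at h1
    have h2 : ((-1 : ℝ)) ^ k * (-1) ^ k = 1 := by rw [← mul_pow]; norm_num
    have h3 : ((-1 : ℝ)) ^ n * (-1) ^ n = 1 := by rw [← mul_pow]; norm_num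
    have h4 : beta n k x = (-1) ^ k * ((-1) ^ n * ((-1) ^ (n - k) * S.coeff (n - k))) := by
      rw [← h1, beta, ← Finset.mul_sum, ← mul_assoc ((-1) ^ n), h3, one_mul]
      congr 1
      refine Finset.sum_congr rfl fun j hj => ?_
      have hj' := Finset.mem_range.mp hj
      rw [coeff_T, coeff_T, Nat.choose_symm (show j ≤ n by omega),
        Nat.choose_symm (show 2 * k - j ≤ n by omega), Nat.sub_sub_self (show j ≤ n by omega),
        Nat.sub_sub_self (show 2 * k - j ≤ n by omega)]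
      ring
    rw [h4, neg_pow_sub (show k ≤ n by omega)]
    linear_combination (S.coeff (n - k) * ((-1) ^ n * (-1) ^ n)) * h2 + S.coeff (n - k) * h3
  rw [e]
  exact hS _

/-- For every `n ≥ 1` and real `x` all the sums `α_{n,k}(x)` (`1 ≤ 2k ≤ n`) and `β_{n,k}(x)`
(`0 ≤ 2k ≤ n - 1`) are nonnegative. -/
theorem result (n : ℕ) (hn : 1 ≤ n) (x : ℝ) :
    (∀ k : ℕ, 1 ≤ 2 * k → 2 * k ≤ n → 0 ≤ alpha n k x) ∧
    (∀ k : ℕ, 2 * k ≤ n - 1 → 0 ≤ beta n k x) :=
  ⟨fun k _ _ => alpha_nonneg n k x, fun k hk => beta_nonneg (by omega) x⟩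

end Pool.Agent.Results.MP_6eafb7_an.Positivity
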